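import Pool.Agent.V11126.Ear.Final

/-!
MP_cf6e1a_co: a simplicial complex which admits a convex ear decomposition need not be shellable.

The complex `Δ` is 3-dimensional. It is the union of the boundary complex of a simplicial 4-polytope
(394 facets, 77 vertices) and of more than `2 ^ |D|` copies of the same ball `B`, all of them glued
along the boundary of `B` (with vertex set `D`). The ball `B` consists of 338 facets of the polytope,
every face of `B` with all its vertices in `D` lies in the boundary of `B`, and `B` contains a knotted
arc made of two edges which meet in an interior vertex `v` and which end in the boundary.
In a facet order of `Δ` there is a copy none of whose facets is the first one to contain a face of the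
boundary of `B` (pigeonhole). If the order is a shelling, then its restriction to this copy, read
backwards, is a shelling of `B` in a strong enough sense to extend the local section at `v` of a
non-trivial 3-fold covering branched along the arc to a global section, which does not exist.
-/

namespace Pool.Agent.Results.MP_cf6e1a_co.NotShellable

open Pool.Agent.V11126.Ear

/-- There is a simplicial complex (pure of dimension 3) which admits a convex ear decomposition and
is not shellable. -/
theorem result : ∃ Δ : Finset (Finset (ℕ × ℕ)),
    IsPure 4 Δ ∧ HasConvexEarDecomposition 4 Δ ∧ ¬ Shellable 4 Δ := main

end Pool.Agent.Results.MP_cf6e1a_co.NotShellable
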